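import Mathlib
import Pool.Agent.W301.SS.ModT

/-! # Small primes in the translates of a set of residue classes, every modulus

For every modulus `d` and every set `A` of at least `d / (log d) ^ C` residue classes modulo `d`, all
but `d / (log d) ^ C` of the translates `A + b` satisfy: the primes up to `x` are equidistributed on
average over the classes of `A + b`, for all `d ≤ x / (log x) ^ K`; and a positive proportion of the
reduced classes of `A + b` contain a prime below `d ^ (1 + ε)`. -/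

set_option autoImplicit false

namespace Pool.Agent.Results.MP_42948a_nt.TranslatesOfClasses

open Finset Filter
open Pool.Agent.W301.SS

/-- the number of `a ∈ A` such that `a + b` is coprime to `d` -/
noncomputable def reduced (d : ℕ) (A : Finset ℕ) (b : ℕ) : ℕ :=
  (A.filter (fun a => Nat.Coprime (a + b) d)).card

open Classical in
/-- the number of `a ∈ A` such that `a + b` is coprime to `d` and some prime at most `y` is
congruent to `a + b` modulo `d` -/
noncomputable def hit (d : ℕ) (A : Finset ℕ) (b : ℕ) (y : ℝ) : ℕ :=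
  (A.filter (fun a => Nat.Coprime (a + b) d ∧ ∃ p : ℕ, p.Prime ∧ (p : ℝ) ≤ y ∧ p ≡ a + b [MOD d])).card

lemma thA_eq (x q n : ℕ) : thA x q n =
    ∑ p ∈ (Icc 1 x).filter (fun p => p.Prime ∧ p ≡ n [MOD q]), Real.log p := by
  unfold thA om
  rw [← sum_filter, filter_filter]
  apply sum_congr _ (fun _ _ => rfl)
  apply filter_congr
  intro m _
  tauto

open Classical in
lemma transfer (M : ℝ) (C x d : ℕ) (y κ : ℝ) (hd : 3 ≤ d) (hdx : d ≤ x) (hxy : (x : ℝ) ≤ y)
    (hκ : κ ≤ Real.log ((x : ℝ) / d) / (M * Real.log x)) (A : Finset ℕ)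
    (hE : ((((range d).filter (fun b => ¬ (|∑ a ∈ A, thA x d (a + b) - (x : ℝ) / Nat.totient d *
        ((A.filter (fun a => Nat.Coprime (a + b) d)).card : ℝ)| ≤ (A.card : ℝ) * x / (d * Real.log x ^ C) ∧
      Real.log ((x : ℝ) / d) / (M * Real.log x) * ((A.filter (fun a => Nat.Coprime (a + b) d)).card : ℝ) -
        A.card / Real.log x ^ C ≤
        ((A.filter (fun a => Nat.Coprime (a + b) d ∧ ∃ p : ℕ, p.Prime ∧ p ≤ x ∧
          p ≡ a + b [MOD d])).card : ℝ)))).card : ℕ) : ℝ) * Real.log x ^ C ≤ d) :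
    ∃ E : Finset ℕ, E ⊆ range d ∧ (E.card : ℝ) * Real.log d ^ C ≤ d ∧ ∀ b < d, b ∉ E →
      κ * reduced d A b - A.card / Real.log d ^ C ≤ hit d A b y := by
  have hd0 : (0 : ℝ) < d := by exact_mod_cast (by omega : 0 < d)
  have hld : 0 < Real.log d := Real.log_pos (by exact_mod_cast (by omega : 1 < d))
  have hlx : Real.log d ≤ Real.log x := Real.log_le_log hd0 (by exact_mod_cast hdx)
  have hpow : Real.log d ^ C ≤ Real.log x ^ C := pow_le_pow_left₀ hld.le hlx C
  refine ⟨(range d).filter (fun b => ¬ (|∑ a ∈ A, thA x d (a + b) - (x : ℝ) / Nat.totient d *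
        ((A.filter (fun a => Nat.Coprime (a + b) d)).card : ℝ)| ≤ (A.card : ℝ) * x / (d * Real.log x ^ C) ∧
      Real.log ((x : ℝ) / d) / (M * Real.log x) * ((A.filter (fun a => Nat.Coprime (a + b) d)).card : ℝ) -
        A.card / Real.log x ^ C ≤
        ((A.filter (fun a => Nat.Coprime (a + b) d ∧ ∃ p : ℕ, p.Prime ∧ p ≤ x ∧
          p ≡ a + b [MOD d])).card : ℝ))), filter_subset _ _, ?_, ?_⟩
  · refine le_trans ?_ hE
    exact mul_le_mul_of_nonneg_left hpow (Nat.cast_nonneg _)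
  · intro b hb hbE
    rw [mem_filter, not_and, not_not] at hbE
    have h1 := (hbE (mem_range.2 hb)).2
    have h2 : (A.card : ℝ) / Real.log x ^ C ≤ A.card / Real.log d ^ C :=
      div_le_div_of_nonneg_left (Nat.cast_nonneg _) (by positivity) hpow
    have h3 : κ * ((A.filter (fun a => Nat.Coprime (a + b) d)).card : ℝ) ≤
        Real.log ((x : ℝ) / d) / (M * Real.log x) * ((A.filter (fun a => Nat.Coprime (a + b) d)).card : ℝ) :=
      mul_le_mul_of_nonneg_right hκ (Nat.cast_nonneg _)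
    have h4 : ((A.filter (fun a => Nat.Coprime (a + b) d ∧ ∃ p : ℕ, p.Prime ∧ p ≤ x ∧
          p ≡ a + b [MOD d])).card : ℝ) ≤ hit d A b y := by
      unfold hit
      have : (A.filter (fun a => Nat.Coprime (a + b) d ∧ ∃ p : ℕ, p.Prime ∧ p ≤ x ∧
          p ≡ a + b [MOD d])) ⊆ (A.filter (fun a => Nat.Coprime (a + b) d ∧ ∃ p : ℕ, p.Prime ∧ (p : ℝ) ≤ y ∧
          p ≡ a + b [MOD d])) := by
        intro a ha
        rw [mem_filter] at ha ⊢
        obtain ⟨ha1, ha2, p, hp1, hp2, hp3⟩ := ha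
        refine ⟨ha1, ha2, p, hp1, ?_, hp3⟩
        have : (p : ℝ) ≤ x := by exact_mod_cast hp2
        linarith
      exact_mod_cast card_le_card this
    unfold reduced
    linarith

theorem result :
    (∀ C : ℕ, ∃ K x₀ : ℕ, ∀ x : ℕ, x₀ ≤ x → ∀ d : ℕ, 1 ≤ d → (d : ℝ) * Real.log x ^ K ≤ x →
      ∀ A : Finset ℕ, A ⊆ range d → (d : ℝ) ≤ A.card * Real.log x ^ C →
      ∃ E : Finset ℕ, E ⊆ range d ∧ (E.card : ℝ) * Real.log x ^ C ≤ d ∧ ∀ b < d, b ∉ E →
        |∑ a ∈ A, ∑ p ∈ (Icc 1 x).filter (fun p => p.Prime ∧ p ≡ a + b [MOD d]), Real.log p -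
          (x : ℝ) / Nat.totient d * reduced d A b| ≤ A.card * x / (d * Real.log x ^ C)) ∧
    (∀ ε : ℝ, 0 < ε → ∃ c : ℝ, 0 < c ∧ ∀ C : ℕ, ∃ d₀ : ℕ, ∀ d : ℕ, d₀ ≤ d →
      ∀ A : Finset ℕ, A ⊆ range d → (d : ℝ) ≤ A.card * Real.log d ^ C →
      ∃ E : Finset ℕ, E ⊆ range d ∧ (E.card : ℝ) * Real.log d ^ C ≤ d ∧ ∀ b < d, b ∉ E →
        c * reduced d A b - A.card / Real.log d ^ C ≤ hit d A b ((d : ℝ) ^ (1 + ε))) ∧
    (∃ c : ℝ, 0 < c ∧ ∀ C : ℕ, ∃ K d₀ : ℕ, ∀ d : ℕ, d₀ ≤ d →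
      ∀ A : Finset ℕ, A ⊆ range d → (d : ℝ) ≤ A.card * Real.log d ^ C →
      ∃ E : Finset ℕ, E ⊆ range d ∧ (E.card : ℝ) * Real.log d ^ C ≤ d ∧ ∀ b < d, b ∉ E →
        c * (Real.log (Real.log d) / Real.log d) * reduced d A b - A.card / Real.log d ^ C ≤
          hit d A b (d * Real.log d ^ K)) := by
  classical
  obtain ⟨M, hM, hch⟩ := chowT
  have hM0 : 0 < M := by linarith
  refine ⟨fun C => ?_, fun ε hε => ?_, ?_⟩
  · obtain ⟨K, hK⟩ := hch C
    obtain ⟨x₀, hx₀⟩ := eventually_atTop.1 hK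
    refine ⟨K, x₀, fun x hx d hd hdx A hA hAc => ?_⟩
    have h1 := hx₀ x hx d hd hdx A (fun a ha => mem_range.1 (hA ha)) hAc
    refine ⟨_, filter_subset _ _, h1, fun b hb hbE => ?_⟩
    rw [mem_filter, not_and, not_not] at hbE
    have h2 := (hbE (mem_range.2 hb)).1
    rw [sum_congr rfl (fun a _ => thA_eq x d (a + b))] at h2
    exact h2
  · set δ := ε / 2 with hδ
    have hδ0 : 0 < δ := by positivity
    refine ⟨δ / (2 * M * (1 + δ)), by positivity, fun C => ?_⟩
    obtain ⟨K, hK⟩ := hch C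
    obtain ⟨x₀, hx₀⟩ := eventually_atTop.1 hK
    have hev := (ev_log K (2 * (1 + δ) ^ K) δ hδ0).and ((ev_L (2 / δ)).and
      ((eventually_ge_atTop x₀).and (eventually_ge_atTop 3)))
    obtain ⟨d₀, hd₀⟩ := eventually_atTop.1 hev
    refine ⟨d₀, fun d hd A hA hAc => ?_⟩
    obtain ⟨g1, g2, g3, g4⟩ := hd₀ d hd
    have hd1 : (1 : ℝ) ≤ d := by exact_mod_cast (by omega : 1 ≤ d)
    have hd0 : (0 : ℝ) < d := by linarith
    set ℓ := Real.log d with hℓ
    have hℓ0 : 0 < ℓ := Real.log_pos (by exact_mod_cast (by omega : 1 < d))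
    have hdd : (d : ℝ) ≤ (d : ℝ) ^ (1 + δ) := by
      calc (d : ℝ) = (d : ℝ) ^ (1 : ℝ) := (Real.rpow_one _).symm
        _ ≤ _ := Real.rpow_le_rpow_of_exponent_le hd1 (by linarith)
    set x := ⌊(d : ℝ) ^ (1 + δ)⌋₊ with hx
    have hxle : (x : ℝ) ≤ (d : ℝ) ^ (1 + δ) := Nat.floor_le (by positivity)
    have hdx : d ≤ x := Nat.le_floor hdd
    have hxge : (d : ℝ) ^ (1 + δ) ≤ 2 * x := by
      have h1 := Nat.lt_floor_add_one ((d : ℝ) ^ (1 + δ))
      have h2 : (1 : ℝ) ≤ x := by exact_mod_cast (by omega : 1 ≤ x)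
      rw [← hx] at h1
      linarith
    have hx0 : (0 : ℝ) < x := by exact_mod_cast (by omega : 0 < x)
    have hlx : Real.log x ≤ (1 + δ) * ℓ := by
      have := Real.log_le_log hx0 hxle
      rwa [Real.log_rpow hd0] at this
    have hlx0 : 0 < Real.log x := by
      have : ℓ ≤ Real.log x := Real.log_le_log hd0 (by exact_mod_cast hdx)
      linarith
    have hsplit : (d : ℝ) ^ (1 + δ) = d * (d : ℝ) ^ δ := by rw [Real.rpow_add hd0, Real.rpow_one]
    have hcond : (d : ℝ) * Real.log x ^ K ≤ x := by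
      have h1 : Real.log x ^ K ≤ (1 + δ) ^ K * ℓ ^ K := by
        rw [← mul_pow]; exact pow_le_pow_left₀ hlx0.le hlx K
      have h2 : 2 * ((d : ℝ) * Real.log x ^ K) ≤ 2 * x := by
        calc 2 * ((d : ℝ) * Real.log x ^ K) ≤ 2 * (d * ((1 + δ) ^ K * ℓ ^ K)) := by gcongr
          _ = d * (2 * (1 + δ) ^ K * ℓ ^ K) := by ring
          _ ≤ d * (d : ℝ) ^ δ := mul_le_mul_of_nonneg_left g1 hd0.le
          _ ≤ 2 * x := by rw [← hsplit]; exact hxge
      linarith
    have hAc' : (d : ℝ) ≤ A.card * Real.log x ^ C := by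
      refine hAc.trans ?_
      apply mul_le_mul_of_nonneg_left _ (Nat.cast_nonneg _)
      exact pow_le_pow_left₀ hℓ0.le (Real.log_le_log hd0 (by exact_mod_cast hdx)) C
    have h1 := hx₀ x (g3.trans hdx) d (by omega) hcond A (fun a ha => mem_range.1 (hA ha)) hAc'
    refine transfer M C x d _ _ g4 hdx (hxle.trans (Real.rpow_le_rpow_of_exponent_le hd1 (by linarith))) ?_ A h1
    have hlog : δ / 2 * ℓ ≤ Real.log ((x : ℝ) / d) := by
      have e1 : (d : ℝ) ^ δ / 2 ≤ (x : ℝ) / d := by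
        rw [div_le_div_iff₀ (by norm_num) hd0, mul_comm ((d : ℝ) ^ δ), ← hsplit]
        linarith
      have e2 := Real.log_le_log (by positivity) e1
      rw [Real.log_div (by positivity) (by norm_num), Real.log_rpow hd0] at e2
      have e3 : 2 ≤ δ * ℓ := by
        rw [div_le_iff₀ hδ0] at g2
        linarith
      have := Real.log_two_lt_d9
      linarith
    rw [div_le_div_iff₀ (by positivity) (by positivity)]
    have e4 : δ * (M * Real.log x) ≤ δ * (M * ((1 + δ) * ℓ)) := by gcongr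
    have e5 : (δ / 2 * ℓ) * (2 * M * (1 + δ)) ≤ Real.log ((x : ℝ) / d) * (2 * M * (1 + δ)) :=
      mul_le_mul_of_nonneg_right hlog (by positivity)
    calc δ * (M * Real.log x) ≤ δ * (M * ((1 + δ) * ℓ)) := e4
      _ = (δ / 2 * ℓ) * (2 * M * (1 + δ)) := by ring
      _ ≤ _ := e5
  · refine ⟨1 / (4 * M), by positivity, fun C => ?_⟩
    obtain ⟨K, hK⟩ := hch C
    obtain ⟨x₀, hx₀⟩ := eventually_atTop.1 hK
    have hev := (ev_log (K + 1) 1 1 one_pos).and ((ev_L (2 ^ (K + 1) + 16)).and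
      ((eventually_ge_atTop x₀).and (eventually_ge_atTop 3)))
    obtain ⟨d₀, hd₀⟩ := eventually_atTop.1 hev
    refine ⟨K + 1, d₀, fun d hd A hA hAc => ?_⟩
    obtain ⟨g1, g2, g3, g4⟩ := hd₀ d hd
    have hd1 : (1 : ℝ) ≤ d := by exact_mod_cast (by omega : 1 ≤ d)
    have hd0 : (0 : ℝ) < d := by linarith
    set ℓ := Real.log d with hℓ
    have hp2 : (0 : ℝ) < 2 ^ (K + 1) := by positivity
    have hℓ16 : 16 ≤ ℓ := by linarith
    have hℓ0 : 0 < ℓ := by linarith
    have hℓ1 : 1 ≤ ℓ := by linarith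
    rw [Real.rpow_one, one_mul] at g1
    have hℓK : 1 ≤ ℓ ^ (K + 1) := one_le_pow₀ hℓ1
    have hdd : (d : ℝ) ≤ d * ℓ ^ (K + 1) := le_mul_of_one_le_right hd0.le hℓK
    set x := ⌊(d : ℝ) * ℓ ^ (K + 1)⌋₊ with hx
    have hxle : (x : ℝ) ≤ d * ℓ ^ (K + 1) := Nat.floor_le (by positivity)
    have hdx : d ≤ x := Nat.le_floor hdd
    have hxge : (d : ℝ) * ℓ ^ (K + 1) ≤ 2 * x := by
      have h1 := Nat.lt_floor_add_one ((d : ℝ) * ℓ ^ (K + 1))
      have h2 : (1 : ℝ) ≤ x := by exact_mod_cast (by omega : 1 ≤ x)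
      rw [← hx] at h1
      linarith
    have hx0 : (0 : ℝ) < x := by exact_mod_cast (by omega : 0 < x)
    have hlx : Real.log x ≤ 2 * ℓ := by
      have h1 : (x : ℝ) ≤ d * d := hxle.trans (mul_le_mul_of_nonneg_left g1 hd0.le)
      have h2 := Real.log_le_log hx0 h1
      rw [Real.log_mul hd0.ne' hd0.ne'] at h2
      linarith
    have hlx1 : ℓ ≤ Real.log x := Real.log_le_log hd0 (by exact_mod_cast hdx)
    have hlx0 : 0 < Real.log x := by linarith
    have hcond : (d : ℝ) * Real.log x ^ K ≤ x := by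
      have h1 : Real.log x ^ K ≤ 2 ^ K * ℓ ^ K := by
        rw [← mul_pow]; exact pow_le_pow_left₀ hlx0.le hlx K
      have h2 : 2 * ((d : ℝ) * Real.log x ^ K) ≤ 2 * x := by
        calc 2 * ((d : ℝ) * Real.log x ^ K) ≤ 2 * (d * (2 ^ K * ℓ ^ K)) := by gcongr
          _ = d * (2 ^ (K + 1) * ℓ ^ K) := by ring
          _ ≤ d * (ℓ * ℓ ^ K) := by
              apply mul_le_mul_of_nonneg_left _ hd0.le
              apply mul_le_mul_of_nonneg_right _ (by positivity)
              linarith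
          _ = d * ℓ ^ (K + 1) := by ring
          _ ≤ 2 * x := hxge
      linarith
    have hAc' : (d : ℝ) ≤ A.card * Real.log x ^ C := by
      refine hAc.trans ?_
      apply mul_le_mul_of_nonneg_left _ (Nat.cast_nonneg _)
      exact pow_le_pow_left₀ hℓ0.le hlx1 C
    have h1 := hx₀ x (g3.trans hdx) d (by omega) hcond A (fun a ha => mem_range.1 (hA ha)) hAc'
    refine transfer M C x d _ _ g4 hdx hxle ?_ A h1
    have hll : Real.log 16 ≤ Real.log ℓ := Real.log_le_log (by norm_num) hℓ16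
    have hl16 : Real.log 16 = 4 * Real.log 2 := by
      rw [show (16 : ℝ) = 2 ^ 4 by norm_num, Real.log_pow]; norm_num
    have hl2 : 0 < Real.log 2 := Real.log_pos (by norm_num)
    have hlog : 1 / 2 * Real.log ℓ ≤ Real.log ((x : ℝ) / d) := by
      have e1 : ℓ ^ (K + 1) / 2 ≤ (x : ℝ) / d := by
        rw [div_le_div_iff₀ (by norm_num) hd0]
        linarith
      have e2 := Real.log_le_log (by positivity) e1
      rw [Real.log_div (by positivity) (by norm_num), Real.log_pow] at e2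
      have e3 : Real.log ℓ ≤ ((K + 1 : ℕ) : ℝ) * Real.log ℓ := by
        apply le_mul_of_one_le_left (by linarith)
        exact_mod_cast (by omega : 1 ≤ K + 1)
      linarith
    have e6 : 0 ≤ Real.log ℓ := by linarith
    calc 1 / (4 * M) * (Real.log ℓ / ℓ) = (1 / 2 * Real.log ℓ) / (M * (2 * ℓ)) := by field_simp; ring
      _ ≤ Real.log ((x : ℝ) / d) / (M * Real.log x) := by
          apply div_le_div₀ (le_trans (by linarith) hlog) hlog (by positivity)
          gcongr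

end Pool.Agent.Results.MP_42948a_nt.TranslatesOfClasses
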